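import Mathlib
import Pool.Agent.R247.LC.Sph2
import Pool.Agent.R247.LC.SphPoly
set_option autoImplicit false

/-!
# Stein's restriction conjecture in `ℝ^3`: the scale invariant inequality for densities whose
level sets meet meridians in few arcs

A set `W` of the unit sphere of `ℝ^3` has arc count at most `N` if in every system of polar
coordinates the meridians (the open half great circles from one pole to the other) meet `W` in
unions of arcs whose number is, on average over the longitudes, at most `N`. All sets which meet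
every half great circle in at most `N` arcs are of this kind, for instance the superlevel sets of
the restrictions to the sphere of the polynomials of degree at most `(N - 1) / 2`.

For every `3 < p < 4` the Fourier transform of `g dσ` is in `L^p(ℝ^3)`, with norm at most
`C_p N^((4-p)/p)` times the norm of `g` in `L^(p/(p-2))(σ)` (the smallest Lebesgue space possible,
by scaling), for all densities whose superlevel sets have arc count at most `N`; in particular,
for the restrictions to the sphere of all complex polynomials of degree at most `D`, with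
`N = 2 D + 1`.

The proof rests on the restricted weak type inequality at the end point `p = 3`,

  `|{ξ : |(1_W dσ)^ (ξ)| > λ}| ≤ C N σ(W) λ^(-3)`

for the sets of arc count at most `N`, and on the Stein-Tomas theorem.
-/

namespace Pool.Agent.Results.MP_6cbfb8_an.ArcCountDensities

open MeasureTheory Set Metric Complex
open scoped ENNReal RealInnerProductSpace

/-- `S ⊆ ℝ` is a union of `n` intervals (possibly empty or degenerate). -/
def Intervals (n : ℕ) (S : Set ℝ) : Prop :=
  ∃ K : Fin n → Set ℝ, (∀ i, Convex ℝ (K i)) ∧ S = ⋃ i, K i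

/-- The point of the unit sphere with height `c` and longitude `φ`; for fixed `φ` these points,
`-1 < c < 1`, form a meridian, an open half great circle from the south pole to the north pole. -/
noncomputable def meridian (φ c : ℝ) : EuclideanSpace ℝ (Fin 3) :=
  !₂[Real.sqrt (1 - c ^ 2) * Real.cos φ, Real.sqrt (1 - c ^ 2) * Real.sin φ, c]

/-- For every linear isometry `L` of `ℝ^3` and almost every longitude `φ`, the image of the
meridian of longitude `φ` under `L` meets `W` in a union of `n φ` arcs, where the average of `n`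
over all longitudes is at most `N`. -/
def ArcCount (N : ℝ) (W : Set (sphere (0 : EuclideanSpace ℝ (Fin 3)) 1)) : Prop :=
  ∀ L : EuclideanSpace ℝ (Fin 3) ≃ₗᵢ[ℝ] EuclideanSpace ℝ (Fin 3), ∃ n : ℝ → ℕ,
    (∫⁻ φ in Ioo (-Real.pi) Real.pi, (n φ : ℝ≥0∞) ≤ ENNReal.ofReal (2 * Real.pi * N)) ∧
    ∀ᵐ φ ∂(volume.restrict (Ioo (-Real.pi) Real.pi)),
      Intervals (n φ) {c : ℝ | c ∈ Ioo (-1 : ℝ) 1 ∧
        L (meridian φ c) ∈ (Subtype.val '' W : Set (EuclideanSpace ℝ (Fin 3)))}

/-- The surface measure of the unit sphere of `ℝ^3`. -/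
noncomputable def sigma : Measure (sphere (0 : EuclideanSpace ℝ (Fin 3)) 1) :=
  (volume : Measure (EuclideanSpace ℝ (Fin 3))).toSphere

/-- The Fourier transform of the measure `g dσ` on the unit sphere of `ℝ^3`. -/
noncomputable def ft (g : sphere (0 : EuclideanSpace ℝ (Fin 3)) 1 → ℂ)
    (ξ : EuclideanSpace ℝ (Fin 3)) : ℂ :=
  ∫ x : sphere (0 : EuclideanSpace ℝ (Fin 3)) 1,
    Complex.exp (-(2 * Real.pi * ⟪(x : EuclideanSpace ℝ (Fin 3)), ξ⟫ : ℝ) * I) * g x ∂sigma

/-- The superlevel sets of the positive and negative parts of the real and the imaginary part of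
`g` have arc count at most `N`. -/
def Levels (N : ℝ) (g : sphere (0 : EuclideanSpace ℝ (Fin 3)) 1 → ℂ) : Prop :=
  ∀ s : ℝ, 0 < s →
    ArcCount N {x | s < (g x).re} ∧ ArcCount N {x | (g x).re < -s} ∧
    ArcCount N {x | s < (g x).im} ∧ ArcCount N {x | (g x).im < -s}

/-- The restriction to the sphere of the polynomial `P + iQ`. -/
noncomputable def polySph (P Q : MvPolynomial (Fin 3) ℝ)
    (x : sphere (0 : EuclideanSpace ℝ (Fin 3)) 1) : ℂ :=
  (MvPolynomial.eval (fun i => (x : EuclideanSpace ℝ (Fin 3)) i) P : ℝ) +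
    (MvPolynomial.eval (fun i => (x : EuclideanSpace ℝ (Fin 3)) i) Q : ℝ) * I

/-! ### Proofs -/

open Pool.Agent.R247.LC (T indc Weak2)
open Pool.Agent.R247.LC.Sp (kS2 kS2_ker mu)

theorem levels_poly {D : ℕ} {P Q : MvPolynomial (Fin 3) ℝ} (hP : P.totalDegree ≤ D)
    (hQ : Q.totalDegree ≤ D) : Levels (2 * D + 1) (polySph P Q) := by
  intro s _
  have hneg : ∀ R : MvPolynomial (Fin 3) ℝ, (-R).totalDegree = R.totalDegree :=
    fun R => MvPolynomial.totalDegree_neg R
  have a1 := Pool.Agent.R247.LC.Sp.sph_poly P hP s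
  have a2 := Pool.Agent.R247.LC.Sp.sph_poly (-P) ((hneg P).le.trans hP) s
  have a3 := Pool.Agent.R247.LC.Sp.sph_poly Q hQ s
  have a4 := Pool.Agent.R247.LC.Sp.sph_poly (-Q) ((hneg Q).le.trans hQ) s
  have r1 : ∀ x, (polySph P Q x).re =
      MvPolynomial.eval (fun i => (x : EuclideanSpace ℝ (Fin 3)) i) P := by
    intro x; simp [polySph]
  have r2 : ∀ x, (polySph P Q x).im =
      MvPolynomial.eval (fun i => (x : EuclideanSpace ℝ (Fin 3)) i) Q := by
    intro x; simp [polySph]
  have key : ∀ (R : MvPolynomial (Fin 3) ℝ),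
      {x : sphere (0 : EuclideanSpace ℝ (Fin 3)) 1 |
        MvPolynomial.eval (fun i => (x : EuclideanSpace ℝ (Fin 3)) i) R < -s} =
      {x : sphere (0 : EuclideanSpace ℝ (Fin 3)) 1 |
        s < MvPolynomial.eval (fun i => (x : EuclideanSpace ℝ (Fin 3)) i) (-R)} := by
    intro R
    ext x
    simp only [mem_ofPred_eq, map_neg]
    exact lt_neg
  simp_rw [r1, r2]
  rw [key P, key Q]
  exact ⟨a1, a2, a3, a4⟩

/-- **Main theorem.** For `3 < p < 4` the Fourier transform of `g dσ` is in `L^p(ℝ³)`, with norm
at most `C_p N^((4-p)/p)` times the norm of `g` in `L^(p/(p-2))(σ)`, for all densities whose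
superlevel sets have arc count at most `N`. In particular this holds for the restrictions to the
sphere of all complex polynomials `P + iQ` of degree at most `D`, with `N = 2 D + 1`. -/
theorem result (p : ℝ) (hp3 : 3 < p) (hp4 : p < 4) :
    ∃ C : ℝ, 0 < C ∧
      (∀ N : ℝ, 0 < N → ∀ g : sphere (0 : EuclideanSpace ℝ (Fin 3)) 1 → ℂ,
        MemLp g (ENNReal.ofReal (p / (p - 2))) sigma → Levels N g →
        eLpNorm (ft g) (ENNReal.ofReal p) volume ≤ ENNReal.ofReal (C * N ^ ((4 - p) / p)) *
          eLpNorm g (ENNReal.ofReal (p / (p - 2))) sigma) ∧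
      (∀ (D : ℕ) (P Q : MvPolynomial (Fin 3) ℝ), P.totalDegree ≤ D → Q.totalDegree ≤ D →
        eLpNorm (ft (polySph P Q)) (ENNReal.ofReal p) volume ≤
          ENNReal.ofReal (C * (2 * D + 1) ^ ((4 - p) / p)) *
            eLpNorm (polySph P Q) (ENNReal.ofReal (p / (p - 2))) sigma) := by
  obtain ⟨K0, K1, hK0, hK1, HW⟩ := Pool.Agent.R247.LC.Sp.weak2_sph
  obtain ⟨C, hC, H⟩ := Pool.Agent.R247.LC.main_complex2 hp3 hp4 hK0 hK1
  have hfin : IsFiniteMeasure sigma := by unfold sigma; infer_instance
  have main : ∀ N : ℝ, 0 < N → ∀ g : sphere (0 : EuclideanSpace ℝ (Fin 3)) 1 → ℂ,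
        MemLp g (ENNReal.ofReal (p / (p - 2))) sigma → Levels N g →
        eLpNorm (ft g) (ENNReal.ofReal p) volume ≤
          ENNReal.ofReal ((C.toReal + 1) * N ^ ((4 - p) / p)) *
          eLpNorm g (ENNReal.ofReal (p / (p - 2))) sigma := by
    intro N hN g hg hlev
    have hp1 : (1 : ℝ≥0∞) ≤ ENNReal.ofReal (p / (p - 2)) := by
      rw [← ENNReal.ofReal_one]
      refine ENNReal.ofReal_le_ofReal ?_
      rw [le_div_iff₀ (by linarith)]
      linarith
    have hi : Integrable g sigma := hg.integrable hp1
    have h1 := H (X := sphere (0 : EuclideanSpace ℝ (Fin 3)) 1) (Z := EuclideanSpace ℝ (Fin 3))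
      (k := kS2) (μ := mu) (ν := volume) kS2_ker hN (HW N hN) g hi hlev
    refine h1.trans ?_
    refine mul_le_mul_left ?_ _
    rw [ENNReal.ofReal_mul (by positivity)]
    refine mul_le_mul_left ?_ _
    rw [ENNReal.ofReal_add ENNReal.toReal_nonneg zero_le_one, ENNReal.ofReal_toReal hC]
    exact le_self_add
  refine ⟨C.toReal + 1, by positivity, main, fun D P Q hP hQ => ?_⟩
  have hcont : Continuous (polySph P Q) := by
    have h0 : Continuous fun x : sphere (0 : EuclideanSpace ℝ (Fin 3)) 1 =>
        fun i => (x : EuclideanSpace ℝ (Fin 3)) i := by fun_prop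
    have h1 := (MvPolynomial.continuous_eval P).comp h0
    have h2 := (MvPolynomial.continuous_eval Q).comp h0
    exact (Complex.continuous_ofReal.comp h1).add
      ((Complex.continuous_ofReal.comp h2).mul continuous_const)
  have hmem : MemLp (polySph P Q) (ENNReal.ofReal (p / (p - 2))) sigma := by
    obtain ⟨B, hB⟩ := isCompact_univ.exists_bound_of_continuousOn (f := polySph P Q)
      hcont.continuousOn
    exact MemLp.of_bound hcont.aestronglyMeasurable B
      (Filter.Eventually.of_forall fun x => hB x (mem_univ x))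
  exact main (2 * D + 1) (by positivity) _ hmem (levels_poly hP hQ)

end Pool.Agent.Results.MP_6cbfb8_an.ArcCountDensities
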