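import Mathlib
import Pool.Agent.R412.SP.Z2
set_option autoImplicit false

/-!
# Stein's restriction conjecture, quadratic form, tested on products

`ft f ξ = ∫_{S^{n-1}} e^{-2πi x·ξ} f(x) dσ(x)`. By duality, `ft f ∈ L^q` with a bound is the
inequality `∫ |ft f|² W ≤ C ‖W‖_{L^r} ‖f‖²` for all `W ≥ 0`, with `r = (q/2)' = q/(q-2)`; the
conjectured range `q > 2n/(n-1)` is `r < n`.

* A. (endpoint) For all `n ≥ 2`, ALL bases `v` of `ℝ^n`, all measurable `A_i ⊆ ℝ`,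
  `B = {ξ : ⟪v_i, ξ⟫ ∈ A_i}` and all densities `f`:
  `∫_B |ft f|² ≤ C |B|^{1/n} ‖f‖²_{L^{2n/(n-1)}(σ)}`.
* B. (endpoint) The same for every weight `W` with `W(ξ) ≤ w_i(⟪v_i, ξ⟫)` for all `i`.
* C. (endpoint) The same for the product weights `∏ w_i(⟪v_i, ξ⟫)`, with Lorentz norms.
* D. For all `1 ≤ r < n`: product weights in `L^r` in all orthonormal frames, all
  `f ∈ L^{2n/(n-1)}(σ)`.
* E. For `n ≥ 3` and all `q > 2n/(n-1)`: weights `∏ φ_i(ξ_i)^{v_i/r} ∏ g_ij(ξ_i, ξ_j)^{w_ij/r}`,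
  with arbitrary functions `g_ij ≥ 0` of two coordinates, in all orthonormal frames.
-/

namespace Pool.Agent.Results.MP_6cbfb8_an.EndpointProducts

open MeasureTheory Set Metric Complex
open scoped ENNReal NNReal RealInnerProductSpace

abbrev E (n : ℕ) := EuclideanSpace ℝ (Fin n)

/-- surface measure on the unit sphere -/
noncomputable def sigma (n : ℕ) : Measure (sphere (0 : E n) 1) := (volume : Measure (E n)).toSphere

/-- the Fourier transform of the measure `f dσ` -/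
noncomputable def ft {n : ℕ} (f : sphere (0 : E n) 1 → ℂ) (ξ : E n) : ℂ :=
  ∫ x, Complex.exp (-(2 * Real.pi * ⟪(x : E n), ξ⟫ : ℝ) * I) * f x ∂(sigma n)

/-- the norm of `f` in `L^(2n/(n-1))(σ)` -/
noncomputable def endNorm {n : ℕ} (f : sphere (0 : E n) 1 → ℂ) : ℝ≥0∞ :=
  eLpNorm f (ENNReal.ofReal (2 * (n : ℝ) / (n - 1))) (sigma n)

/-- the volume of the unit cell of the frame `v` -/
noncomputable def cell {n : ℕ} (v : Fin n → E n) : ℝ≥0∞ :=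
  volume {ξ : E n | ∀ i, ⟪v i, ξ⟫ ∈ Ioc (0 : ℝ) 1}

/-- the Lorentz norm `L^(n,1)(ℝ)`, `∫_0^∞ |{u > t}|^(1/n) dt` -/
noncomputable def lorentz (n : ℕ) (u : ℝ → ℝ≥0∞) : ℝ≥0∞ :=
  ∫⁻ t in Ioi (0 : ℝ), volume {a | ENNReal.ofReal t < u a} ^ (1 / (n : ℝ))

/-- total weight one at each coordinate -/
def Weights {n : ℕ} (v : Fin n → ℝ) (w : Fin n → Fin n → ℝ) : Prop :=
  (∀ i, 0 ≤ v i) ∧ (∀ i j, 0 ≤ w i j) ∧
    ∀ i, v i + ∑ j ∈ Finset.Ioi i, w i j + ∑ j ∈ Finset.Iio i, w j i = 1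

/-- A. The endpoint estimate for product sets in all linear frames. -/
def EndpointSets (n : ℕ) : Prop :=
  ∃ C : ℝ≥0, ∀ (f : sphere (0 : E n) 1 → ℂ) (v : Fin n → E n) (A : Fin n → Set ℝ),
    Integrable f (sigma n) → LinearIndependent ℝ v → (∀ i, MeasurableSet (A i)) →
    ∫⁻ ξ in {ξ | ∀ i, ⟪v i, ξ⟫ ∈ A i}, ‖ft f ξ‖ₑ ^ 2 ≤
      C * volume {ξ : E n | ∀ i, ⟪v i, ξ⟫ ∈ A i} ^ (1 / (n : ℝ)) * endNorm f ^ 2

/-- B. The endpoint estimate for weights with majorants of one linear coordinate. -/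
def EndpointMajorants (n : ℕ) : Prop :=
  ∃ C : ℝ≥0, ∀ (f : sphere (0 : E n) 1 → ℂ) (v : Fin n → E n) (w : Fin n → ℝ → ℝ≥0∞)
    (W : E n → ℝ≥0∞), Integrable f (sigma n) → LinearIndependent ℝ v →
    (∀ i, Measurable (w i)) → (∀ ξ i, W ξ ≤ w i ⟪v i, ξ⟫) →
    ∫⁻ ξ, W ξ * ‖ft f ξ‖ₑ ^ 2 ≤
      C * (cell v * ∏ i, ∫⁻ t, w i t) ^ (1 / (n : ℝ)) * endNorm f ^ 2

/-- C. The endpoint estimate for product weights in all linear frames. -/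
def EndpointLorentz (n : ℕ) : Prop :=
  ∃ C : ℝ≥0, ∀ (f : sphere (0 : E n) 1 → ℂ) (v : Fin n → E n) (w : Fin n → ℝ → ℝ≥0∞),
    Integrable f (sigma n) → LinearIndependent ℝ v → (∀ i, Measurable (w i)) →
    ∫⁻ ξ, (∏ i, w i ⟪v i, ξ⟫) * ‖ft f ξ‖ₑ ^ 2 ≤
      C * cell v ^ (1 / (n : ℝ)) * (∏ i, lorentz n (w i)) * endNorm f ^ 2

/-- D. All `r < n`: product weights in all orthonormal frames. -/
def ProductWeights (n : ℕ) : Prop :=
  ∀ r : ℝ, 1 ≤ r → r < n → ∃ C : ℝ≥0, ∀ (f : sphere (0 : E n) 1 → ℂ)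
    (e : OrthonormalBasis (Fin n) ℝ (E n)) (w : Fin n → ℝ → ℝ≥0∞),
    Integrable f (sigma n) → (∀ i, Measurable (w i)) →
    ∫⁻ ξ, (∏ i, w i ⟪e i, ξ⟫) * ‖ft f ξ‖ₑ ^ 2 ≤
      C * (∏ i, (∫⁻ t, w i t ^ r) ^ (1 / r)) * endNorm f ^ 2

/-- E. All `q > 2n/(n-1)`: products of functions of at most two coordinates. -/
def PairWeights (n : ℕ) : Prop :=
  ∀ q : ℝ, 2 * (n : ℝ) / (n - 1) < q → ∃ C : ℝ≥0,
    ∀ (e : OrthonormalBasis (Fin n) ℝ (E n)) (v : Fin n → ℝ) (w : Fin n → Fin n → ℝ),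
    Weights v w → ∀ p : ℝ≥0∞, (p = ∞ ∨ p = 4 ∧ ∀ i, v i = 0) →
    ∀ (f : sphere (0 : E n) 1 → ℂ) (φ : Fin n → ℝ → ℝ≥0∞) (g : Fin n → Fin n → ℝ × ℝ → ℝ≥0∞),
    MemLp f p (sigma n) → (∀ i, Measurable (φ i)) → (∀ i j, Measurable (g i j)) →
    ∫⁻ ξ, ‖ft f ξ‖ₑ ^ 2 * ((∏ i, φ i ⟪e i, ξ⟫ ^ (v i * (1 - 2 / q))) *
        ∏ i, ∏ j ∈ Finset.Ioi i, g i j (⟪e i, ξ⟫, ⟪e j, ξ⟫) ^ (w i j * (1 - 2 / q))) ≤
      C * ((∏ i, (∫⁻ t, φ i t) ^ (v i * (1 - 2 / q))) *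
        ∏ i, ∏ j ∈ Finset.Ioi i, (∫⁻ z, g i j z) ^ (w i j * (1 - 2 / q))) *
        eLpNorm f p (sigma n) ^ 2

/-- **Theorem.** Stein's restriction conjecture, quadratic form, tested on products. -/
theorem result : (∀ n : ℕ, 2 ≤ n → EndpointSets n ∧ EndpointMajorants n ∧ EndpointLorentz n ∧
    ProductWeights n) ∧ ∀ n : ℕ, 3 ≤ n → PairWeights n := by
  constructor
  · intro n hn
    obtain ⟨m, rfl⟩ : ∃ m, n = m + 1 := ⟨n - 1, by omega⟩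
    have hm : 1 ≤ m := by omega
    have hK := Pool.Agent.R412.SP.CE_ne_top m
    refine ⟨⟨(Pool.Agent.R412.SP.CE m).toNNReal, ?_⟩, ⟨(Pool.Agent.R412.SP.CE m).toNNReal, ?_⟩,
      ⟨(Pool.Agent.R412.SP.CE m).toNNReal, ?_⟩, ?_⟩
    · rw [ENNReal.coe_toNNReal hK]
      intro f v A hf hv hA
      exact Pool.Agent.R412.SP.partA hm f hf v hv A hA
    · rw [ENNReal.coe_toNNReal hK]
      intro f v w W hf hv hw hW
      exact Pool.Agent.R412.SP.partB hm f hf v hv w W hw hW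
    · rw [ENNReal.coe_toNNReal hK]
      intro f v w hf hv hw
      exact Pool.Agent.R412.SP.partC hm f hf v hv w hw
    · intro r hr hrn
      refine ⟨(Pool.Agent.R412.SP.CW m r).toNNReal, ?_⟩
      rw [ENNReal.coe_toNNReal (Pool.Agent.R412.SP.CW_ne_top m r)]
      intro f e w hf hw
      exact Pool.Agent.R412.SP.partD hm r hr hrn f hf e w hw
  · intro n hn q hq
    obtain ⟨C, hC⟩ := Pool.Agent.R412.SP.partE n hn q hq
    refine ⟨C ^ 2, ?_⟩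
    intro e v w hw p hp f φ g hf hφ hg
    have h := hC e v w ⟨hw.1, hw.2.1, hw.2.2⟩ p hp f hf φ g hφ hg
    refine h.trans (le_of_eq ?_)
    rw [ENNReal.coe_pow, show (2 : ℝ) = ((2 : ℕ) : ℝ) by norm_num, ENNReal.rpow_natCast]
    push_cast
    unfold sigma Pool.Agent.R412.SP.sigma
    ring

end Pool.Agent.Results.MP_6cbfb8_an.EndpointProducts
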