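import Mathlib
import Pool.Agent.R245.OD.Exc
import Pool.Agent.R245.OD.Sph
set_option autoImplicit false

/-!
# Stein's restriction conjecture in `ℝ^3` for almost every isotropic dilate of a density

Let `f` be a bounded Borel function on the open unit disc of `ℝ^2` and, for `0 < l < 1`, let
`dil l f` be the density on the unit sphere of `ℝ^3` which is `f(x₁/l, x₂/l)` at the points `x` with
`x₃ > 0` and `x₁² + x₂² < l²`, and `0` elsewhere. (Up to a scaling this is the lift of the fixed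
function `f` to the sphere of radius `1/l`.)

For `3 < q ≤ 4` the Fourier transform of `(dil l f) dσ` is in `L^q(ℝ^3)` for all `l ∈ (0,1)` outside
a set of Hausdorff dimension at most `(4-q)/(q-2)`, which is less than one. In particular, for
almost every `l` it is in `L^q(ℝ^3)` for every `q > 3`, the full range of the conjecture.

This is a family with ONE parameter, and the dilations are the same in all directions; for the
paraboloid these dilations are symmetries of the problem.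
-/

namespace Pool.Agent.Results.MP_6cbfb8_an.IsotropicExceptionalDilates

open MeasureTheory Set Metric Complex Filter
open scoped ENNReal RealInnerProductSpace

/-- The Fourier transform of the measure `g dσ`, where `σ` is the surface measure of the unit
sphere of `ℝ^3`: `ξ ↦ ∫ exp(-2πi x·ξ) g(x) dσ(x)`. -/
noncomputable def FT (g : EuclideanSpace ℝ (Fin 3) → ℂ) (ξ : EuclideanSpace ℝ (Fin 3)) : ℂ :=
  ∫ x : sphere (0 : EuclideanSpace ℝ (Fin 3)) 1,
    cexp (-(2 * Real.pi * I) * ((⟪(x : EuclideanSpace ℝ (Fin 3)), ξ⟫ : ℝ) : ℂ)) * g x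
      ∂(volume : Measure (EuclideanSpace ℝ (Fin 3))).toSphere

/-- The dilated density: `f(x₁/l, x₂/l)` if `x₃ > 0` and `x₁² + x₂² < l²`, and `0` otherwise. -/
noncomputable def dil (l : ℝ) (f : EuclideanSpace ℝ (Fin 2) → ℂ)
    (x : EuclideanSpace ℝ (Fin 3)) : ℂ :=
  if 0 < x 2 ∧ x 0 ^ 2 + x 1 ^ 2 < l ^ 2 then f !₂[x 0 / l, x 1 / l] else 0

open Pool.Agent.W203.SP (dens FD ee sg fb DS NQ)
open Pool.Agent.R245.OD (a_FDL exc_dim)

lemma dil_eq {l : ℝ} (hl : 0 < l) (f : EuclideanSpace ℝ (Fin 2) → ℂ) :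
    dil l f = dens (fun _ : Fin 2 => l) f := by
  funext x
  have e0 : x (Fin.last 2) = x 2 := rfl
  have e1 : (WithLp.toLp 2 fun j : Fin 2 => x j.castSucc / l : EuclideanSpace ℝ (Fin 2)) =
      !₂[x 0 / l, x 1 / l] := by
    ext j
    fin_cases j <;> simp
  have e2 : ∑ j : Fin 2, (x j.castSucc / l) ^ 2 = (x 0 ^ 2 + x 1 ^ 2) / l ^ 2 := by
    rw [Fin.sum_univ_two]
    simp only [div_pow]
    rw [← add_div]
    rfl
  have hl2 : 0 < l ^ 2 := by positivity
  unfold dil dens
  rw [e0, e1, e2]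
  simp only [div_lt_one hl2]

lemma FT_eq (l : ℝ) (f : EuclideanSpace ℝ (Fin 2) → ℂ) :
    FT (dens (fun _ : Fin 2 => l) f) = FD (fun _ : Fin 2 => l) f := by
  ext ξ
  have hs : MeasurableSet (sphere (0 : EuclideanSpace ℝ (Fin 3)) 1) :=
    isClosed_sphere.measurableSet
  unfold FT FD sg
  rw [(MeasurableEmbedding.subtype_coe hs).integral_map]
  apply integral_congr_ae
  refine ae_of_all _ fun x => ?_
  unfold ee
  simp only
  congr 2
  push_cast
  ring

/-- **The exceptional isotropic dilates have Hausdorff dimension at most `(4-q)/(q-2) < 1`.** -/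
theorem result (q : ℝ) (hq3 : 3 < q) (hq4 : q ≤ 4) (M : ℝ) (f : EuclideanSpace ℝ (Fin 2) → ℂ)
    (hf : Measurable f) (hM : ∀ z, ‖z‖ < 1 → ‖f z‖ ≤ M) :
    dimH {l : ℝ | 0 < l ∧ l < 1 ∧ ¬ MemLp (FT (dil l f)) (ENNReal.ofReal q) volume} ≤
      ENNReal.ofReal ((4 - q) / (q - 2)) ∧
    (4 - q) / (q - 2) < 1 := by
  have hq0 : 0 < q := by linarith
  refine ⟨?_, by rw [div_lt_one (by linarith)]; linarith⟩
  have hM0 : 0 ≤ M := (norm_nonneg _).trans (hM 0 (by simp))
  have hD : DS M (fb f) := by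
    refine ⟨hf.indicator measurableSet_ball, fun z => ?_, fun z hz => ?_⟩
    · unfold fb
      by_cases hz : z ∈ ball (0 : EuclideanSpace ℝ (Fin 2)) 1
      · rw [indicator_of_mem hz]
        exact hM z (mem_ball_zero_iff.1 hz)
      · rw [indicator_of_notMem hz, norm_zero]
        exact hM0
    · unfold fb
      rw [indicator_of_notMem]
      rw [mem_ball_zero_iff]
      linarith
  have hsub : {l : ℝ | 0 < l ∧ l < 1 ∧ ¬ MemLp (FT (dil l f)) (ENNReal.ofReal q) volume} ⊆
      Real.sqrt '' {σ : ℝ | 0 < σ ∧ σ < 1 ∧ NQ 1 q univ (fun _ => σ) (fb f) = ⊤} := by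
    rintro l ⟨h0, h1, hn⟩
    refine ⟨l ^ 2, ⟨by positivity, by nlinarith, ?_⟩, Real.sqrt_sq h0.le⟩
    by_contra hne
    apply hn
    rw [dil_eq h0, FT_eq]
    apply Pool.Agent.W203.SP.FD_memLp _ hf hq0
    rw [a_FDL 2 (fun _ => l) (fun _ => ⟨h0, h1⟩) f hf q hq0.le]
    exact ENNReal.mul_lt_top (ENNReal.mul_lt_top ENNReal.ofReal_lt_top ENNReal.ofReal_lt_top)
      (lt_top_iff_ne_top.2 hne)
  refine (dimH_mono hsub).trans ?_
  have hC : ContDiffOn ℝ 1 Real.sqrt (Ioi (0 : ℝ)) := fun x hx =>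
    (Real.contDiffAt_sqrt (ne_of_gt hx)).contDiffWithinAt
  refine (hC.dimH_image_le (convex_Ioi 0) (fun σ hσ => hσ.1)).trans ?_
  exact exc_dim 1 hD (by linarith) hq4

end Pool.Agent.Results.MP_6cbfb8_an.IsotropicExceptionalDilates
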