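import Mathlib
import Pool.Agent.R245.OD.Sph
import Pool.Agent.R245.OD.Bv
import Pool.Agent.R245.OD.Sup
set_option autoImplicit false

/-!
# Stein's restriction conjecture in `ℝ^3` for densities that are regular only along meridians

A bounded density on a spherical cap which is smaller than a hemisphere is a function
`G(x₁, x₂)`, `x₃ > 0`, where `G` vanishes for `‖z‖ ≥ b`, `b < 1`. The meridians through the
centre of the cap are the images of the rays of the plane from the origin.

* If `G` has `s > 1/4` derivatives along the rays, in an averaged `L^2` sense at every scale, and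
  NO regularity in the longitude, then the Fourier transform is in `L^p(ℝ^3)` for every `p > 3`,
  the full range of the conjecture, with norm at most `C A`.
* The same holds if `G` has bounded variation along the rays, for instance for the indicator
  function of an arbitrary measurable set which is star-shaped with respect to the centre of the
  cap.
* The same holds for all absolutely convergent superpositions of modulated densities of this
  kind, with different centres.
-/

namespace Pool.Agent.Results.MP_6cbfb8_an.MeridianRegularity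

open MeasureTheory Set Metric Complex Filter
open scoped ENNReal RealInnerProductSpace

/-- The Fourier transform of the measure `g dσ` on the unit sphere of `ℝ^3`. -/
noncomputable def ft (g : sphere (0 : EuclideanSpace ℝ (Fin 3)) 1 → ℂ)
    (ξ : EuclideanSpace ℝ (Fin 3)) : ℂ :=
  ∫ x : sphere (0 : EuclideanSpace ℝ (Fin 3)) 1,
    Complex.exp (-(2 * Real.pi * ⟪(x : EuclideanSpace ℝ (Fin 3)), ξ⟫ : ℝ) * I) * g x
      ∂(volume : Measure (EuclideanSpace ℝ (Fin 3))).toSphere

/-- The function on the sphere that is `G(x₁, x₂)` for `x₃ > 0` and `0` for `x₃ ≤ 0`. -/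
noncomputable def cap (G : EuclideanSpace ℝ (Fin 2) → ℂ) (x : EuclideanSpace ℝ (Fin 3)) : ℂ :=
  if 0 < x 2 then G !₂[x 0, x 1] else 0

/-- `G` is measurable, bounded by `A`, vanishes for `‖z‖ ≥ b`, and, along the rays from the
origin, either it has `s` derivatives in an averaged `L^2` sense at every scale, or its variation
along every ray is at most `A`. There is no condition in the angular variable. -/
structure Mer (s b A : ℝ) (G : EuclideanSpace ℝ (Fin 2) → ℂ) : Prop where
  meas : Measurable G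
  bound : ∀ z, ‖G z‖ ≤ A
  supp : ∀ z, b ≤ ‖z‖ → G z = 0
  reg : (∀ h r : ℝ, 0 < h → h ≤ 1 → 0 < r → r ≤ 1 →
      ∫ z in closedBall (0 : EuclideanSpace ℝ (Fin 2)) r, ‖G ((1 + h) • z) - G z‖ ^ 2 ≤
        A ^ 2 * h ^ (2 * s) * r ^ 2) ∨
    (∀ z, eVariationOn (fun t : ℝ => G (t • z)) (Ioi 0) ≤ ENNReal.ofReal A)

/-- The density `g` on the unit sphere of `ℝ^3` is a superposition of modulated densities
`∑_j e^{i⟨η_j, x⟩} g_j(U_j x)`, where `U_j` is an isometry of `ℝ^3` and `g_j` is the function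
`cap G_j` with a function `G_j` as above, with the bound `A j`. -/
def Super (s b : ℝ) (A : ℕ → ℝ) (g : sphere (0 : EuclideanSpace ℝ (Fin 3)) 1 → ℂ) : Prop :=
  ∃ (η : ℕ → EuclideanSpace ℝ (Fin 3))
    (U : ℕ → EuclideanSpace ℝ (Fin 3) ≃ₗᵢ[ℝ] EuclideanSpace ℝ (Fin 3))
    (G : ℕ → EuclideanSpace ℝ (Fin 2) → ℂ), (∀ j, Mer s b (A j) (G j)) ∧
    ∀ᵐ x : sphere (0 : EuclideanSpace ℝ (Fin 3)) 1
      ∂(volume : Measure (EuclideanSpace ℝ (Fin 3))).toSphere,
      g x = ∑' j, Complex.exp ((⟪η j, (x : EuclideanSpace ℝ (Fin 3))⟫ : ℝ) * I) *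
        cap (G j) (U j (x : EuclideanSpace ℝ (Fin 3)))

/-! ### Proofs -/

open Pool.Agent.R245.OD (HM rsc fS sS sphMap superpose FD_bound bv_HM)
open Pool.Agent.W203.SP (FD dens sg ee)

lemma reg_HM {s b A : ℝ} {G : EuclideanSpace ℝ (Fin 2) → ℂ} (hG : Mer s b A G)
    (h : ∀ h r : ℝ, 0 < h → h ≤ 1 → 0 < r → r ≤ 1 →
      ∫ z in closedBall (0 : EuclideanSpace ℝ (Fin 2)) r, ‖G ((1 + h) • z) - G z‖ ^ 2 ≤
        A ^ 2 * h ^ (2 * s) * r ^ 2) : HM A s G := by
  intro t r ht ht1 hr hr1
  have hm : Measurable fun z : EuclideanSpace ℝ (Fin 2) => G ((1 + t) • z) - G z :=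
    (hG.meas.comp (measurable_const_smul _)).sub hG.meas
  have hint : IntegrableOn (fun z : EuclideanSpace ℝ (Fin 2) => ‖G ((1 + t) • z) - G z‖ ^ 2)
      (closedBall (0 : EuclideanSpace ℝ (Fin 2)) r) := by
    apply Measure.integrableOn_of_bounded (M := (2 * A) ^ 2) measure_closedBall_lt_top.ne
      (hm.norm.pow_const 2).aestronglyMeasurable
    refine ae_of_all _ fun z => ?_
    rw [norm_pow, norm_norm]
    have h1 := norm_sub_le (G ((1 + t) • z)) (G z)
    have h2 := hG.bound ((1 + t) • z)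
    have h3 := hG.bound z
    exact pow_le_pow_left₀ (norm_nonneg _) (by linarith) 2
  have h1 := h t r ht ht1 hr hr1
  have h2 := ofReal_integral_eq_lintegral_ofReal hint (ae_of_all _ fun z => by positivity)
  refine le_trans (le_of_eq ?_) (ENNReal.ofReal_le_ofReal h1)
  rw [h2]
  apply lintegral_congr
  intro z
  rw [← ofReal_norm, ← ENNReal.ofReal_pow (norm_nonneg _)]

lemma HM_mono {A B s s' : ℝ} (hA : 0 ≤ A) (hAB : A ≤ B) (hs : s' ≤ s)
    {G : EuclideanSpace ℝ (Fin 2) → ℂ} (h : HM A s G) : HM B s' G := by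
  intro t r ht ht1 hr hr1
  refine (h t r ht ht1 hr hr1).trans (ENNReal.ofReal_le_ofReal ?_)
  have h1 : t ^ (2 * s) ≤ t ^ (2 * s') :=
    Real.rpow_le_rpow_of_exponent_ge ht ht1 (by linarith)
  gcongr

lemma mer_HM {s b A : ℝ} {G : EuclideanSpace ℝ (Fin 2) → ℂ} (h : Mer s b A G) :
    HM (4 * A) (min s (1 / 2)) G := by
  have hA : 0 ≤ A := (norm_nonneg _).trans (h.bound 0)
  rcases h.reg with h1 | h1
  · exact HM_mono hA (by linarith) (min_le_left _ _) (reg_HM h h1)
  · exact HM_mono (by linarith) le_rfl (min_le_right _ _) (bv_HM h.meas h.bound h1)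

lemma cap_eq {b : ℝ} (hb : 0 < b) {G : EuclideanSpace ℝ (Fin 2) → ℂ}
    (hs : ∀ z, b ≤ ‖z‖ → G z = 0) (x : EuclideanSpace ℝ (Fin 3)) :
    cap G x = dens (fun _ : Fin 2 => b) (rsc b G) x := by
  have e0 : x (Fin.last 2) = x 2 := rfl
  have e1 : (WithLp.toLp 2 fun j : Fin 2 => x j.castSucc / b : EuclideanSpace ℝ (Fin 2)) =
      b⁻¹ • !₂[x 0, x 1] := by
    ext j
    fin_cases j <;> simp [div_eq_inv_mul]
  have e2 : ∑ j : Fin 2, (x j.castSucc / b) ^ 2 = (‖(!₂[x 0, x 1] : EuclideanSpace ℝ (Fin 2))‖ / b) ^ 2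
      := by
    rw [div_pow, EuclideanSpace.real_norm_sq_eq, Finset.sum_div]
    apply Finset.sum_congr rfl
    intro j _
    fin_cases j <;> simp [div_pow]
  unfold cap dens
  rw [e0, e2]
  by_cases h0 : 0 < x 2
  · rw [if_pos h0]
    by_cases h1 : (‖(!₂[x 0, x 1] : EuclideanSpace ℝ (Fin 2))‖ / b) ^ 2 < 1
    · rw [if_pos ⟨h0, h1⟩, e1]
      unfold rsc
      rw [smul_smul, mul_inv_cancel₀ hb.ne', one_smul]
    · rw [if_neg (fun h => h1 h.2)]
      apply hs
      by_contra hlt
      apply h1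
      push Not at hlt
      have h2 : ‖(!₂[x 0, x 1] : EuclideanSpace ℝ (Fin 2))‖ / b < 1 := (div_lt_one hb).2 hlt
      have h3 : 0 ≤ ‖(!₂[x 0, x 1] : EuclideanSpace ℝ (Fin 2))‖ / b := by positivity
      nlinarith
  · rw [if_neg h0, if_neg (fun h => h0 h.1)]

lemma cap_meas {G : EuclideanSpace ℝ (Fin 2) → ℂ} (hG : Measurable G) : Measurable (cap G) := by
  unfold cap
  refine Measurable.ite (measurableSet_lt measurable_const (by fun_prop)) (hG.comp ?_)
    measurable_const
  fun_prop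

lemma fS_FD {b : ℝ} (hb : 0 < b) {G : EuclideanSpace ℝ (Fin 2) → ℂ}
    (hs : ∀ z, b ≤ ‖z‖ → G z = 0) :
    fS (fun x : sphere (0 : EuclideanSpace ℝ (Fin 3)) 1 => cap G x) =
      FD (fun _ : Fin 2 => b) (rsc b G) := by
  funext ξ
  have hsp : MeasurableSet (sphere (0 : EuclideanSpace ℝ (Fin 3)) 1) :=
    isClosed_sphere.measurableSet
  unfold fS FD sg sS
  rw [(MeasurableEmbedding.subtype_coe hsp).integral_map]
  apply integral_congr_ae
  refine ae_of_all _ fun x => ?_
  simp only [cap_eq hb hs]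
  unfold ee
  congr 2
  push_cast
  ring

lemma coe_sphMap (U : EuclideanSpace ℝ (Fin 3) ≃ₗᵢ[ℝ] EuclideanSpace ℝ (Fin 3))
    (x : sphere (0 : EuclideanSpace ℝ (Fin 3)) 1) :
    ((sphMap U x : sphere (0 : EuclideanSpace ℝ (Fin 3)) 1) : EuclideanSpace ℝ (Fin 3)) = U x := rfl

lemma ft_fS (g : sphere (0 : EuclideanSpace ℝ (Fin 3)) 1 → ℂ) : ft g = fS g := rfl

lemma cls_main {s b p : ℝ} (hs0 : 1 / 4 < s) (hb0 : 0 < b) (hb : b < 1) (hp : 3 < p) :
    ∃ C : ℝ, 0 < C ∧ ∀ A : ℕ → ℝ, (∀ j, 0 ≤ A j) → Summable A →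
      ∀ g : sphere (0 : EuclideanSpace ℝ (Fin 3)) 1 → ℂ, Super s b A g →
        MemLp (ft g) (ENNReal.ofReal p) ∧
        eLpNorm (ft g) (ENNReal.ofReal p) ≤ ENNReal.ofReal (C * ∑' j, A j) := by
  have hs : 1 / 4 < min s (1 / 2) := lt_min hs0 (by norm_num)
  have hp0 : 0 < p := by linarith
  obtain ⟨C, hC, hmain⟩ := FD_bound hs hb0 hb hp
  set D : ℝ := C.toReal * 4 ^ p + 1 with hD
  have hD0 : 0 < D := by positivity
  refine ⟨D ^ (1 / p), by positivity, ?_⟩
  rintro A hA0 hA g ⟨η, U, G, hG, hg⟩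
  rw [ft_fS]
  have hg' : ∀ᵐ x : sphere (0 : EuclideanSpace ℝ (Fin 3)) 1 ∂(sS 3),
      g x = ∑' j, Complex.exp ((⟪η j, (x : EuclideanSpace ℝ (Fin 3))⟫ : ℝ) * I) *
        cap (G j) ((sphMap (U j) x : sphere (0 : EuclideanSpace ℝ (Fin 3)) 1) :
          EuclideanSpace ℝ (Fin 3)) := by
    simp only [coe_sphMap]
    exact hg
  have key := superpose (n := 3) (q := p) (by linarith) hD0 hA0 hA
    (fun j (x : sphere (0 : EuclideanSpace ℝ (Fin 3)) 1) => cap (G j) x) η U
  refine key ?_ g hg'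
  intro j
  have hGj := hG j
  have hm : Measurable fun x : sphere (0 : EuclideanSpace ℝ (Fin 3)) 1 => cap (G j) x :=
    (cap_meas hGj.meas).comp measurable_subtype_coe
  refine ⟨hm, ?_, ?_, ?_⟩
  · intro x
    unfold cap
    split_ifs
    · exact hGj.bound _
    · rw [norm_zero]
      exact hA0 j
  · rw [fS_FD hb0 hGj.supp]
    exact Pool.Agent.W203.SP.FD_meas _
      (hGj.meas.comp (measurable_const_smul b) : Measurable (rsc b (G j)))
  · rcases (hA0 j).eq_or_lt with h0 | hpos
    · have hz : ∀ z, G j z = 0 := fun z => by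
        have := hGj.bound z
        rw [← h0] at this
        exact norm_le_zero_iff.1 this
      have hcz : (fun x : sphere (0 : EuclideanSpace ℝ (Fin 3)) 1 => cap (G j) x) = fun _ => 0 := by
        funext x
        unfold cap
        split_ifs
        · exact hz _
        · rfl
      rw [hcz, ← h0]
      have : ∀ ξ, fS (fun _ : sphere (0 : EuclideanSpace ℝ (Fin 3)) 1 => (0 : ℂ)) ξ = 0 := by
        intro ξ
        unfold fS
        simp
      simp only [this, enorm_zero, ENNReal.zero_rpow_of_pos hp0, lintegral_const, zero_mul]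
      exact zero_le
    · have h4 : 0 < 4 * A j := by positivity
      have h1 := hmain (4 * A j) (G j) h4 hGj.meas
        (fun z => (hGj.bound z).trans (by linarith)) hGj.supp (mer_HM hGj)
      rw [fS_FD hb0 hGj.supp]
      refine h1.trans ?_
      rw [← ENNReal.ofReal_toReal hC.ne, ← ENNReal.ofReal_mul ENNReal.toReal_nonneg]
      apply ENNReal.ofReal_le_ofReal
      rw [Real.mul_rpow (by norm_num) hpos.le, ← mul_assoc]
      apply mul_le_mul_of_nonneg_right _ (by positivity)
      rw [hD]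
      linarith

lemma super_mono {s b b' : ℝ} (hb : b ≤ b') {A : ℕ → ℝ}
    {g : sphere (0 : EuclideanSpace ℝ (Fin 3)) 1 → ℂ} (h : Super s b A g) : Super s b' A g := by
  obtain ⟨η, U, G, hG, hg⟩ := h
  exact ⟨η, U, G, fun j => ⟨(hG j).meas, (hG j).bound, fun z hz => (hG j).supp z (hb.trans hz),
    (hG j).reg⟩, hg⟩

/-- **Stein's restriction conjecture in `ℝ^3` for superpositions of densities on caps which have
more than `1/4` of a derivative, or bounded variation, along the meridians through the centre of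
the cap, and which are arbitrary in longitude.** -/
theorem result (s b p : ℝ) (hs : 1 / 4 < s) (hb : b < 1) (hp : 3 < p) :
    ∃ C : ℝ, 0 < C ∧ ∀ A : ℕ → ℝ, (∀ j, 0 ≤ A j) → Summable A →
      ∀ g : sphere (0 : EuclideanSpace ℝ (Fin 3)) 1 → ℂ, Super s b A g →
        MemLp (ft g) (ENNReal.ofReal p) ∧
        eLpNorm (ft g) (ENNReal.ofReal p) ≤ ENNReal.ofReal (C * ∑' j, A j) := by
  have hb' : max b (1 / 2) < 1 := max_lt hb (by norm_num)
  have hb0 : 0 < max b (1 / 2) := lt_of_lt_of_le (by norm_num) (le_max_right _ _)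
  obtain ⟨C, hC, h⟩ := cls_main hs hb0 hb' hp
  exact ⟨C, hC, fun A hA hA' g hg => h A hA hA' g (super_mono (le_max_left _ _) hg)⟩

end Pool.Agent.Results.MP_6cbfb8_an.MeridianRegularity
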